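import Mathlib

set_option autoImplicit false

open Filter Topology BoundedContinuousFunction

namespace Pool.Agent.Lib.MP_faf25a_an

/-- Branches of the binary tree. -/
abbrev Br : Type := ℕ → Bool

/-- Restriction of a branch to the first `n` coordinates. -/
def res (b : Br) (n : ℕ) : Fin n → Bool := fun j => b j

/-- The countable index set. -/
def Om : Type := Σ n : ℕ, (Fin n → Bool) × (Fin n → Bool)

instance : TopologicalSpace Om := ⊥
instance : DiscreteTopology Om := ⟨rfl⟩
instance : Countable Om := inferInstanceAs (Countable (Σ n : ℕ, (Fin n → Bool) × (Fin n → Bool)))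

/-- Bounded functions on the countable index set. -/
abbrev LO : Type := Om →ᵇ ℝ

/-- Walsh characters. -/
def chi (t : Br) {n : ℕ} (a : Fin n → Bool) : ℝ := ∏ j : Fin n, if a j && t j then -1 else 1

lemma chi_mul_self (t : Br) {n : ℕ} (a : Fin n → Bool) : chi t a * chi t a = 1 := by
  unfold chi
  rw [← Finset.prod_mul_distrib]
  refine Finset.prod_eq_one fun j _ => ?_
  split_ifs <;> norm_num

lemma abs_chi (t : Br) {n : ℕ} (a : Fin n → Bool) : |chi t a| = 1 := by
  have := chi_mul_self t a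
  rcases mul_self_eq_one_iff.mp this with h | h <;> simp [h]

lemma sum_chi_mul {t t' : Br} {n : ℕ} (h : res t n ≠ res t' n) :
    ∑ a : Fin n → Bool, chi t a * chi t' a = 0 := by
  obtain ⟨j0, hj0⟩ := Function.ne_iff.mp h
  have e : ∀ a : Fin n → Bool, chi t a * chi t' a
      = ∏ j : Fin n, ((if a j && t j then (-1 : ℝ) else 1) * (if a j && t' j then -1 else 1)) := by
    intro a
    unfold chi
    rw [← Finset.prod_mul_distrib]
  simp_rw [e]
  have := Finset.prod_univ_sum (fun _ : Fin n => (Finset.univ : Finset Bool))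
    (fun (j : Fin n) (β : Bool) =>
      ((if β && t j then (-1 : ℝ) else 1) * (if β && t' j then -1 else 1)))
  rw [Fintype.piFinset_univ] at this
  rw [← this]
  refine Finset.prod_eq_zero (Finset.mem_univ j0) ?_
  unfold res at hj0
  cases h1 : t j0 <;> cases h2 : t' j0 <;> simp_all

/-- The mean of `x` against a Walsh character on one slice. -/
noncomputable def avg (b t : Br) (n : ℕ) (x : LO) : ℝ :=
  ((2 : ℝ) ^ n)⁻¹ * ∑ a : Fin n → Bool, chi t a * x ⟨n, res b n, a⟩

lemma avg_add (b t : Br) (n : ℕ) (x y : LO) : avg b t n (x + y) = avg b t n x + avg b t n y := by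
  simp [avg, mul_add, Finset.sum_add_distrib]

lemma avg_smul (b t : Br) (n : ℕ) (c : ℝ) (x : LO) : avg b t n (c • x) = c * avg b t n x := by
  simp only [avg, BoundedContinuousFunction.smul_apply, smul_eq_mul, Finset.mul_sum]
  exact Finset.sum_congr rfl fun a _ => by ring

lemma abs_avg_le (b t : Br) (n : ℕ) (x : LO) : |avg b t n x| ≤ ‖x‖ := by
  unfold avg
  rw [abs_mul, abs_of_pos (by positivity : (0 : ℝ) < ((2 : ℝ) ^ n)⁻¹),
    inv_mul_le_iff₀ (by positivity)]
  refine (Finset.abs_sum_le_sum_abs _ _).trans ?_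
  have : ∀ a ∈ (Finset.univ : Finset (Fin n → Bool)), |chi t a * x ⟨n, res b n, a⟩| ≤ ‖x‖ := by
    intro a _
    rw [abs_mul, abs_chi, one_mul]
    exact x.norm_coe_le_norm _
  refine (Finset.sum_le_sum this).trans (le_of_eq ?_)
  simp

lemma bessel_avg {ι : Type} (F : Finset ι) (τ : ι → Br) (b : Br) (n : ℕ) (x : LO)
    (h : ∀ p ∈ F, ∀ q ∈ F, p ≠ q → res (τ p) n ≠ res (τ q) n) :
    ∑ p ∈ F, avg b (τ p) n x ^ 2 ≤ ‖x‖ ^ 2 := by
  classical
  set m : ι → ℝ := fun p => avg b (τ p) n x with hm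
  set u : (Fin n → Bool) → ℝ := fun a => x ⟨n, res b n, a⟩ with hu
  have h2 : (0 : ℝ) < 2 ^ n := by positivity
  have e1 : ∀ p, ∑ a, chi (τ p) a * u a = 2 ^ n * m p := by
    intro p
    simp only [hm, avg, hu]
    field_simp
  have e2 : ∀ p ∈ F, ∀ q ∈ F, ∑ a : Fin n → Bool, chi (τ p) a * chi (τ q) a
      = if p = q then 2 ^ n else 0 := by
    intro p hp q hq
    split_ifs with hpq
    · subst hpq; simp [chi_mul_self]
    · exact sum_chi_mul (h p hp q hq hpq)
  have e3 : ∑ a, (u a - ∑ p ∈ F, m p * chi (τ p) a) ^ 2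
      = ∑ a, u a ^ 2 - 2 ^ n * ∑ p ∈ F, m p ^ 2 := by
    have : ∀ a, (u a - ∑ p ∈ F, m p * chi (τ p) a) ^ 2
        = u a ^ 2 - 2 * ∑ p ∈ F, m p * (chi (τ p) a * u a)
          + ∑ p ∈ F, ∑ q ∈ F, m p * m q * (chi (τ p) a * chi (τ q) a) := by
      intro a
      have f1 : ∑ p ∈ F, m p * (chi (τ p) a * u a) = (∑ p ∈ F, m p * chi (τ p) a) * u a := by
        rw [Finset.sum_mul]; exact Finset.sum_congr rfl fun p _ => by ring
      have f2 : ∑ p ∈ F, ∑ q ∈ F, m p * m q * (chi (τ p) a * chi (τ q) a)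
          = (∑ p ∈ F, m p * chi (τ p) a) * ∑ p ∈ F, m p * chi (τ p) a := by
        rw [Finset.sum_mul_sum]
        exact Finset.sum_congr rfl fun p _ => Finset.sum_congr rfl fun q _ => by ring
      rw [f1, f2]; ring
    simp_rw [this]
    rw [Finset.sum_add_distrib, Finset.sum_sub_distrib, ← Finset.mul_sum, Finset.sum_comm]
    have g1 : ∑ p ∈ F, ∑ a, m p * (chi (τ p) a * u a) = 2 ^ n * ∑ p ∈ F, m p ^ 2 := by
      rw [Finset.mul_sum]
      refine Finset.sum_congr rfl fun p _ => ?_
      rw [← Finset.mul_sum, e1]; ring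
    have g2 : ∑ a : Fin n → Bool, ∑ p ∈ F, ∑ q ∈ F, m p * m q * (chi (τ p) a * chi (τ q) a)
        = 2 ^ n * ∑ p ∈ F, m p ^ 2 := by
      rw [Finset.sum_comm, Finset.mul_sum]
      refine Finset.sum_congr rfl fun p hp => ?_
      rw [Finset.sum_comm]
      have : ∀ q ∈ F, ∑ a : Fin n → Bool, m p * m q * (chi (τ p) a * chi (τ q) a)
          = if p = q then 2 ^ n * m p ^ 2 else 0 := by
        intro q hq
        rw [← Finset.mul_sum, e2 p hp q hq]
        split_ifs with hpq
        · subst hpq; ring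
        · simp
      rw [Finset.sum_congr rfl this]
      simp [hp]
    rw [g1, g2]; ring
  have e4 : 0 ≤ ∑ a, (u a - ∑ p ∈ F, m p * chi (τ p) a) ^ 2 :=
    Finset.sum_nonneg fun a _ => sq_nonneg _
  have e5 : ∑ a, u a ^ 2 ≤ 2 ^ n * ‖x‖ ^ 2 := by
    have : ∀ a ∈ (Finset.univ : Finset (Fin n → Bool)), u a ^ 2 ≤ ‖x‖ ^ 2 := by
      intro a _
      rw [← sq_abs]
      exact pow_le_pow_left₀ (abs_nonneg _) (x.norm_coe_le_norm _) 2
    refine (Finset.sum_le_sum this).trans (le_of_eq ?_)
    simp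
  have : 2 ^ n * ∑ p ∈ F, m p ^ 2 ≤ 2 ^ n * ‖x‖ ^ 2 := by linarith
  exact le_of_mul_le_mul_left this h2

/-- The limit of the means along an ultrafilter. -/
noncomputable def mu (b t : Br) (i : ℕ) (x : LO) : ℝ :=
  limUnder (hyperfilter ℕ : Filter ℕ) (fun k => avg b t (Nat.pair i k) x)

lemma tendsto_mu (b t : Br) (i : ℕ) (x : LO) :
    Tendsto (fun k => avg b t (Nat.pair i k) x) (hyperfilter ℕ : Filter ℕ) (𝓝 (mu b t i x)) := by
  refine tendsto_nhds_limUnder ?_
  obtain ⟨y, -, hy⟩ := (isCompact_Icc (a := -‖x‖) (b := ‖x‖)).ultrafilter_le_nhds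
    ((hyperfilter ℕ).map fun k => avg b t (Nat.pair i k) x) (by
      rw [Ultrafilter.coe_map, le_principal_iff, mem_map]
      exact Eventually.of_forall fun k => abs_le.mp (abs_avg_le _ _ _ _))
  exact ⟨y, hy⟩

lemma abs_mu_le (b t : Br) (i : ℕ) (x : LO) : |mu b t i x| ≤ ‖x‖ :=
  le_of_tendsto' (tendsto_mu b t i x).abs fun _ => abs_avg_le _ _ _ _

/-- The mean as a continuous linear functional. -/
noncomputable def muL (b t : Br) (i : ℕ) : LO →L[ℝ] ℝ :=
  LinearMap.mkContinuous
    { toFun := mu b t i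
      map_add' := fun x y => tendsto_nhds_unique (tendsto_mu b t i (x + y)) (by
        simp_rw [avg_add]; exact (tendsto_mu b t i x).add (tendsto_mu b t i y))
      map_smul' := fun c x => tendsto_nhds_unique (tendsto_mu b t i (c • x)) (by
        simp_rw [avg_smul]; exact (tendsto_mu b t i x).const_mul c) } 1
    (fun x => by simpa using abs_mu_le b t i x)

lemma muL_apply (b t : Br) (i : ℕ) (x : LO) : muL b t i x = mu b t i x := rfl

lemma eventually_res_ne {t t' : Br} (h : t ≠ t') : ∀ᶠ n in atTop, res t n ≠ res t' n := by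
  obtain ⟨j, hj⟩ := Function.ne_iff.mp h
  filter_upwards [eventually_gt_atTop j] with n hn he
  exact hj (congrFun he ⟨j, hn⟩)

lemma eventually_res_ne_finset {ι : Type} (F : Finset ι) (τ : ι → Br)
    (h : ∀ p ∈ F, ∀ q ∈ F, p ≠ q → τ p ≠ τ q) :
    ∀ᶠ n in atTop, ∀ p ∈ F, ∀ q ∈ F, p ≠ q → res (τ p) n ≠ res (τ q) n := by
  refine (eventually_all_finset F).mpr fun p hp => (eventually_all_finset F).mpr fun q hq => ?_
  by_cases hpq : p = q
  · exact Eventually.of_forall fun _ h' => absurd hpq h'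
  · exact (eventually_res_ne (h p hp q hq hpq)).mono fun _ h' _ => h'

lemma tendsto_pair (i : ℕ) : Tendsto (fun k => Nat.pair i k) (hyperfilter ℕ : Filter ℕ) atTop :=
  (tendsto_atTop_mono (fun k => Nat.right_le_pair i k) tendsto_id).mono_left
    Nat.hyperfilter_le_atTop

lemma countable_mu_ne (b : Br) (i : ℕ) (x : LO) : {t : Br | mu b t i x ≠ 0}.Countable := by
  have hs : Summable (fun t : Br => mu b t i x ^ 2) := by
    refine summable_of_sum_le (c := ‖x‖ ^ 2) (fun t => sq_nonneg _) fun F => ?_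
    refine le_of_tendsto (tendsto_finsetSum F fun t _ => (tendsto_mu b t i x).pow 2) ?_
    filter_upwards [(tendsto_pair i).eventually
      (eventually_res_ne_finset F id fun _ _ _ _ h => h)] with k hk
    exact bessel_avg F id b _ x hk
  refine hs.countable_support.mono fun t ht => ?_
  simpa using ht

/-- The test function living on branch `b` and level `i`. -/
noncomputable def zf (b t : Br) (i : ℕ) : LO :=
  ofNormedAddCommGroupDiscrete
    (fun ω : Om => if ω.2.1 = res b ω.1 ∧ (Nat.unpair ω.1).1 = i then chi t ω.2.2 else 0) 1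
    (fun ω => by
      split_ifs
      · rw [Real.norm_eq_abs, abs_chi]
      · simp)

lemma zf_apply (b t : Br) (i : ℕ) (ω : Om) :
    zf b t i ω = if ω.2.1 = res b ω.1 ∧ (Nat.unpair ω.1).1 = i then chi t ω.2.2 else 0 := rfl

lemma mu_zf (b t : Br) (i : ℕ) : mu b t i (zf b t i) = 1 := by
  refine tendsto_nhds_unique (tendsto_mu b t i _) ?_
  have : ∀ k, avg b t (Nat.pair i k) (zf b t i) = 1 := by
    intro k
    simp only [avg, zf_apply, Nat.unpair_pair, and_self, if_true, chi_mul_self]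
    simp
  simp_rw [this]
  exact tendsto_const_nhds

open Classical in
/-- The indicator function of a point. -/
noncomputable def pt (ω : Om) : LO :=
  ofNormedAddCommGroupDiscrete (fun ω' => if ω' = ω then 1 else 0) 1
    (fun ω' => by split_ifs <;> simp)

open Classical in
lemma pt_apply (ω ω' : Om) : pt ω ω' = if ω' = ω then 1 else 0 := rfl

/-- The closed span of the point indicators. -/
noncomputable def cz : Submodule ℝ LO := (Submodule.span ℝ (Set.range pt)).topologicalClosure

lemma mu_pt (b t : Br) (i : ℕ) (ω : Om) : mu b t i (pt ω) = 0 := by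
  refine tendsto_nhds_unique (tendsto_mu b t i _) (tendsto_const_nhds.congr' ?_)
  filter_upwards [(tendsto_pair i).eventually (eventually_gt_atTop ω.1)] with k hk
  unfold avg
  rw [Finset.sum_eq_zero, mul_zero]
  intro a _
  rw [pt_apply, if_neg, mul_zero]
  intro h
  rw [← h] at hk
  exact lt_irrefl _ hk

lemma mu_cz (b t : Br) (i : ℕ) {x : LO} (hx : x ∈ cz) : mu b t i x = 0 := by
  have : cz ≤ (muL b t i).ker := by
    refine Submodule.topologicalClosure_minimal _ ?_ (muL b t i).isClosed_ker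
    rw [Submodule.span_le]
    rintro _ ⟨ω, rfl⟩
    exact mu_pt b t i ω
  exact this hx

lemma mem_cz_of_low {x : LO} {n0 : ℕ} (h : ∀ ω : Om, n0 ≤ ω.1 → x ω = 0) : x ∈ cz := by
  classical
  have hfin : {ω : Om | ω.1 < n0}.Finite := by
    have : {ω : Om | ω.1 < n0} ⊆ ⋃ n ∈ Set.Iio n0,
        Set.range (fun p : (Fin n → Bool) × (Fin n → Bool) => (⟨n, p⟩ : Om)) := by
      rintro ⟨n, p⟩ hn
      exact Set.mem_biUnion hn ⟨p, rfl⟩
    exact ((Set.finite_Iio n0).biUnion fun n _ => Set.finite_range _).subset this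
  have e : x = ∑ ω ∈ hfin.toFinset, x ω • pt ω := by
    ext ω'
    simp only [BoundedContinuousFunction.coe_sum, Finset.sum_apply,
      BoundedContinuousFunction.smul_apply, pt_apply, smul_eq_mul, mul_ite, mul_one, mul_zero,
      Finset.sum_ite_eq, Set.Finite.mem_toFinset, Set.mem_ofPred_eq]
    split_ifs with h1
    · rfl
    · exact h _ (not_lt.mp h1)
  rw [e]
  exact Submodule.le_topologicalClosure _ (Submodule.sum_mem _ fun ω _ =>
    Submodule.smul_mem _ _ (Submodule.subset_span ⟨ω, rfl⟩))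

lemma separable_cz : ∃ s : Set cz, Dense s ∧ s.Countable := by
  have h : TopologicalSpace.IsSeparable (cz : Set LO) :=
    ((Set.countable_range pt).isSeparable.span).closure
  have := h.separableSpace
  obtain ⟨s, h1, h2⟩ := TopologicalSpace.exists_countable_dense cz
  exact ⟨s, h2, h1⟩

/-- A functional vanishing on `cz` lives on only countably many branches. -/
lemma countable_bad (w : LO →L[ℝ] ℝ) (hw : ∀ x ∈ cz, w x = 0) :
    {b : Br | ∃ x : LO, (∀ ω : Om, ω.2.1 ≠ res b ω.1 → x ω = 0) ∧ w x ≠ 0}.Countable := by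
  classical
  have hex : ∀ b : Br, ∃ x : LO, (∀ ω : Om, ω.2.1 ≠ res b ω.1 → x ω = 0) ∧ ‖x‖ ≤ 1 ∧ 0 ≤ w x ∧
      ((∃ x : LO, (∀ ω : Om, ω.2.1 ≠ res b ω.1 → x ω = 0) ∧ w x ≠ 0) → w x ≠ 0) := by
    intro b
    by_cases h : ∃ x : LO, (∀ ω : Om, ω.2.1 ≠ res b ω.1 → x ω = 0) ∧ w x ≠ 0
    · obtain ⟨x, h1, h2⟩ := h
      have hx : x ≠ 0 := by rintro rfl; simp at h2
      have hn : 0 < ‖x‖ := norm_pos_iff.mpr hx
      have ha : 0 < |w x| := abs_pos.mpr h2
      refine ⟨(w x / (|w x| * ‖x‖)) • x, fun ω hω => by simp [h1 ω hω], ?_, ?_, fun _ => ?_⟩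
      · rw [norm_smul, Real.norm_eq_abs, abs_div, abs_mul, abs_abs, abs_norm]
        exact le_of_eq (by field_simp)
      · rw [map_smul, smul_eq_mul, div_mul_eq_mul_div]
        exact div_nonneg (mul_self_nonneg _) (by positivity)
      · rw [map_smul, smul_eq_mul]
        exact mul_ne_zero (div_ne_zero h2 (by positivity)) h2
    · exact ⟨0, fun _ _ => rfl, by simp, by simp, fun h' => absurd h' h⟩
  choose x hx1 hx2 hx3 hx4 using hex
  have hs : Summable (fun b : Br => w (x b)) := by
    refine summable_of_sum_le (c := ‖w‖) hx3 fun F => ?_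
    obtain ⟨n0, hn0⟩ := eventually_atTop.mp (eventually_res_ne_finset F id fun _ _ _ _ h => h)
    set y : LO := ofNormedAddCommGroupDiscrete
      (fun ω : Om => if n0 ≤ ω.1 then (∑ b ∈ F, x b) ω else 0) ‖∑ b ∈ F, x b‖ (fun ω => by
        split_ifs
        · exact BoundedContinuousFunction.norm_coe_le_norm _ _
        · simp) with hy
    have hyω : ∀ ω, y ω = if n0 ≤ ω.1 then (∑ b ∈ F, x b) ω else 0 := fun ω => rfl
    have h1 : w (∑ b ∈ F, x b - y) = 0 := by
      refine hw _ (mem_cz_of_low (n0 := n0) fun ω hω => ?_)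
      rw [BoundedContinuousFunction.sub_apply, hyω, if_pos hω, sub_self]
    have h2 : ‖y‖ ≤ 1 := by
      refine (BoundedContinuousFunction.norm_le zero_le_one).mpr fun ω => ?_
      rw [hyω]
      split_ifs with hω
      · simp only [BoundedContinuousFunction.coe_sum, Finset.sum_apply]
        by_cases hb : ∃ b ∈ F, ω.2.1 = res b ω.1
        · obtain ⟨b, hbF, hb⟩ := hb
          rw [Finset.sum_eq_single_of_mem b hbF]
          · exact ((x b).norm_coe_le_norm ω).trans (hx2 b)
          · intro b' hb' hne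
            refine hx1 b' ω ?_
            rw [hb]
            exact hn0 _ hω b hbF b' hb' hne.symm
        · push Not at hb
          rw [Finset.sum_eq_zero fun b hbF => hx1 b ω (hb b hbF)]
          simp
      · simp
    rw [map_sub, map_sum, sub_eq_zero] at h1
    rw [h1]
    exact (le_abs_self _).trans ((w.le_opNorm y).trans (mul_le_of_le_one_right (norm_nonneg _) h2))
  exact hs.countable_support.mono fun b hb => hx4 b hb

end Pool.Agent.Lib.MP_faf25a_an
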