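import Mathlib
import Pool.Agent.Lib.MP_faf25a_an.Mean

set_option autoImplicit false

open Filter Topology BoundedContinuousFunction

namespace Pool.Agent.Lib.MP_faf25a_an

universe u

/-- A bounded family of functionals gives an operator into bounded functions. -/
lemma exists_op {V : Type u} [NormedAddCommGroup V] [NormedSpace ℝ V] {ι : Type}
    [TopologicalSpace ι] [DiscreteTopology ι] (ψ : ι → V →L[ℝ] ℝ) (C : ℝ) (hC0 : 0 ≤ C)
    (hC : ∀ i, ‖ψ i‖ ≤ C) : ∃ T : V →L[ℝ] (ι →ᵇ ℝ), ∀ v i, T v i = ψ i v := by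
  refine ⟨LinearMap.mkContinuous
    { toFun := fun v => ofNormedAddCommGroupDiscrete (fun i => ψ i v) (C * ‖v‖)
        (fun i => (ψ i).le_of_opNorm_le (hC i) v)
      map_add' := fun v w => by ext i; simp
      map_smul' := fun c v => by ext i; simp } C (fun v => ?_), fun v i => rfl⟩
  refine (BoundedContinuousFunction.norm_le (by positivity)).mpr fun i => ?_
  exact (ψ i).le_of_opNorm_le (hC i) v

/-- Coordinatewise Hahn-Banach extension. -/
lemma exists_coord {V : Type u} [NormedAddCommGroup V] [NormedSpace ℝ V] {ι : Type}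
    [TopologicalSpace ι] (W : Submodule ℝ V) (t : W →L[ℝ] (ι →ᵇ ℝ)) :
    ∃ ψ : ι → V →L[ℝ] ℝ, (∀ i, ‖ψ i‖ ≤ ‖t‖) ∧ ∀ i (w : W), ψ i w = t w i := by
  have : ∀ i, ∃ ψ : V →L[ℝ] ℝ, ‖ψ‖ ≤ ‖t‖ ∧ ∀ w : W, ψ w = t w i := by
    intro i
    obtain ⟨g, hg1, hg2⟩ := exists_extension_norm_eq W ((evalCLM ℝ i).comp t)
    refine ⟨g, ?_, fun w => hg1 w⟩
    rw [hg2]
    refine ContinuousLinearMap.opNorm_le_bound _ t.opNorm_nonneg fun w => ?_
    exact ((t w).norm_coe_le_norm i).trans (t.le_opNorm w)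
  choose ψ h1 h2 using this
  exact ⟨ψ, h1, h2⟩

lemma injective_LO {V : Type u} [NormedAddCommGroup V] [NormedSpace ℝ V]
    (W : Submodule ℝ V) (t : W →L[ℝ] LO) : ∃ T : V →L[ℝ] LO, ∀ w : W, T w = t w := by
  obtain ⟨ψ, h1, h2⟩ := exists_coord W t
  obtain ⟨T, hT⟩ := exists_op ψ ‖t‖ t.opNorm_nonneg h1
  exact ⟨T, fun w => by ext i; rw [hT, h2]⟩

/-- The tree: finite sequences of labelled branches. -/
abbrev Tr : Type := List (Bool × Br)

lemma exists_tau : ∃ τ : Tr → Br, Function.Injective τ := by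
  have h : Cardinal.mk Tr ≤ Cardinal.mk Br := by
    rw [Cardinal.mk_list_eq_mk]
    simp
  obtain ⟨e⟩ := h
  exact ⟨e, e.injective⟩

/-- An injective labelling of the nodes of the tree by branches. -/
noncomputable def tau : Tr → Br := exists_tau.choose

lemma tau_injective : Function.Injective tau := exists_tau.choose_spec

/-- The big index set. -/
def Ix : Type := Br × Tr × Bool

instance : TopologicalSpace Ix := ⊥
instance : DiscreteTopology Ix := ⟨rfl⟩

/-- Bounded functions on the big index set. -/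
abbrev LI : Type := Ix →ᵇ ℝ

/-- A point of the big index set. -/
def ix (b : Br) (q : Tr) (ε : Bool) : Ix := (b, q, ε)

/-- The exceptional edges of a function. -/
def Exc (f : LI) (b : Br) : Set ((Bool × Br) × Tr) :=
  {p | ∃ δ, f (ix b (p.1 :: p.2) δ) ≠ f (ix b p.2 p.1.1)}

/-- The jump functional at a node. -/
noncomputable def jump (b : Br) (q : Tr) : LO →L[ℝ] ℝ := muL b (tau q) q.length

/-- The twisted sum. -/
noncomputable def XS : Submodule ℝ (LO × LI) where
  carrier := {z | (∀ b, (Exc z.2 b).Countable) ∧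
    ∀ b q, z.2 (ix b q true) - z.2 (ix b q false) = jump b q z.1}
  add_mem' := by
    rintro z z' ⟨h1, h2⟩ ⟨h3, h4⟩
    refine ⟨fun b => ((h1 b).union (h3 b)).mono ?_, fun b q => ?_⟩
    · rintro p ⟨δ, hδ⟩
      by_contra hc
      simp only [Set.mem_union, Exc, Set.mem_ofPred_eq, not_or, not_exists, not_not] at hc
      exact hδ (by simp [hc.1 δ, hc.2 δ])
    · simp only [Prod.snd_add, Prod.fst_add, BoundedContinuousFunction.add_apply, map_add]
      rw [← h2 b q, ← h4 b q]; ring
  zero_mem' := ⟨fun b => by simp [Exc], fun b q => by simp⟩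
  smul_mem' := by
    rintro c z ⟨h1, h2⟩
    refine ⟨fun b => (h1 b).mono ?_, fun b q => ?_⟩
    · rintro p ⟨δ, hδ⟩
      refine ⟨δ, fun h => hδ ?_⟩
      simp [h]
    · simp only [Prod.smul_snd, Prod.smul_fst, BoundedContinuousFunction.smul_apply, map_smul,
        smul_eq_mul]
      rw [← h2 b q]; ring

lemma mem_XS {z : LO × LI} : z ∈ XS ↔ (∀ b, (Exc z.2 b).Countable) ∧
    ∀ b q, z.2 (ix b q true) - z.2 (ix b q false) = jump b q z.1 := Iff.rfl

lemma isClosed_XS : IsClosed (XS : Set (LO × LI)) := by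
  refine IsSeqClosed.isClosed fun z z0 hz hlim => ?_
  have hev : ∀ i : Ix, Tendsto (fun n => (z n).2 i) atTop (𝓝 (z0.2 i)) := fun i =>
    (((evalCLM ℝ i).continuous.comp continuous_snd).tendsto z0).comp hlim
  refine mem_XS.mpr ⟨fun b => ?_, fun b q => ?_⟩
  · refine (Set.countable_iUnion fun n => (mem_XS.mp (hz n)).1 b).mono ?_
    rintro p ⟨δ, hδ⟩
    by_contra hc
    simp only [Set.mem_iUnion, Exc, Set.mem_ofPred_eq, not_exists, not_not] at hc
    refine hδ (tendsto_nhds_unique (hev _) ?_)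
    simp_rw [fun n => hc n δ]
    exact hev _
  · refine tendsto_nhds_unique ((hev _).sub (hev _)) ?_
    simp_rw [fun n => (mem_XS.mp (hz n)).2 b q]
    exact (((jump b q).continuous.comp continuous_fst).tendsto z0).comp hlim

instance : CompleteSpace XS := isClosed_XS.completeSpace_coe

/-- The projection onto the first coordinate. -/
noncomputable def proj : XS →L[ℝ] LO := (ContinuousLinearMap.fst ℝ LO LI).comp XS.subtypeL

lemma proj_apply (z : XS) : proj z = z.1.1 := rfl

/-- The kernel of the projection. -/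
noncomputable def YS : Submodule ℝ XS := proj.ker

lemma isClosed_YS : IsClosed (YS : Set XS) := proj.isClosed_ker

open Classical in
/-- Retraction of the tree onto the root and a set of edges. -/
noncomputable def retr (E : Set ((Bool × Br) × Tr)) : Tr → Tr
  | [] => []
  | a :: q => if (a, q) ∈ E then a :: q else retr E q

lemma usi_YS {V : Type u} [NormedAddCommGroup V] [NormedSpace ℝ V] (W : Submodule ℝ V)
    (s : Set W) (hs : Dense s) (hc : s.Countable) (t : W →L[ℝ] YS) :
    ∃ T : V →L[ℝ] YS, ∀ w : W, T w = t w := by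
  classical
  set t2 : W →L[ℝ] LI :=
    (ContinuousLinearMap.snd ℝ LO LI).comp (XS.subtypeL.comp (YS.subtypeL.comp t)) with ht2
  have ht2a : ∀ w, t2 w = (t w).1.1.2 := fun w => rfl
  have h0 : ∀ w, (t w).1.1.1 = 0 := fun w => (t w).2
  have hsame : ∀ w b q ε, t2 w (ix b q ε) = t2 w (ix b q true) := by
    intro w b q ε
    cases ε
    · have := (mem_XS.mp (t w).1.2).2 b q
      rw [h0, map_zero, sub_eq_zero] at this
      exact this.symm
    · rfl
  set E : Br → Set ((Bool × Br) × Tr) := fun b => ⋃ w ∈ s, Exc (t2 w) b with hE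
  have hEc : ∀ b, (E b).Countable := fun b =>
    hc.biUnion fun w _ => (mem_XS.mp (t w).1.2).1 b
  have hedge : ∀ b p, p ∉ E b → ∀ w δ, t2 w (ix b (p.1 :: p.2) δ) = t2 w (ix b p.2 p.1.1) := by
    intro b p hp w δ
    refine hs.induction (P := fun w => t2 w (ix b (p.1 :: p.2) δ) = t2 w (ix b p.2 p.1.1))
      (fun w hw => ?_) (isClosed_eq ?_ ?_) w
    · by_contra hne
      exact hp (Set.mem_biUnion hw ⟨δ, hne⟩)
    · exact (evalCLM ℝ _).continuous.comp t2.continuous
    · exact (evalCLM ℝ _).continuous.comp t2.continuous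
  have hretr : ∀ w b q ε, t2 w (ix b (retr (E b) q) true) = t2 w (ix b q ε) := by
    intro w b q
    induction q with
    | nil => intro ε; exact (hsame w b [] ε).symm
    | cons a q ih =>
      intro ε
      unfold retr
      split_ifs with h
      · exact (hsame w b _ ε).symm
      · rw [ih a.1]
        exact (hedge b (a, q) h w ε).symm
  obtain ⟨ψ, h1, h2⟩ := exists_coord W t2
  obtain ⟨T, hT⟩ := exists_op (ι := Ix) (fun i => ψ (ix i.1 (retr (E i.1) i.2.1) true)) ‖t2‖
    t2.opNorm_nonneg (fun i => h1 _)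
  have hT' : ∀ v b q ε, T v (ix b q ε) = ψ (ix b (retr (E b) q) true) v := fun v b q ε => hT v _
  have hmem : ∀ v, ((0 : V →L[ℝ] LO).prod T) v ∈ XS := by
    intro v
    refine mem_XS.mpr ⟨fun b => (hEc b).mono ?_, fun b q => ?_⟩
    · rintro p ⟨δ, hδ⟩
      by_contra hp
      refine hδ ?_
      show T v _ = T v _
      rw [hT', hT']
      conv_lhs => unfold retr
      rw [if_neg hp]
    · show T v _ - T v _ = jump b q 0
      rw [hT', hT', map_zero, sub_self]
  refine ⟨(((0 : V →L[ℝ] LO).prod T).codRestrict XS hmem).codRestrict YS (fun v => rfl),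
    fun w => ?_⟩
  refine Subtype.ext (Subtype.ext (Prod.ext (h0 w).symm ?_))
  show T w = t2 w
  ext ⟨b, q, ε⟩
  exact (hT' w b q ε).trans ((h2 _ w).trans (hretr w b q ε))

open Classical in
/-- The recursive lifting of prescribed jumps. -/
noncomputable def lft (g : Tr → ℝ) : Tr → Bool → ℝ
  | [], ε => if ε then g [] / 2 else -(g [] / 2)
  | a :: q, ε => if g (a :: q) ≠ 0 then (if ε then g (a :: q) / 2 else -(g (a :: q) / 2))
      else lft g q a.1

lemma abs_lft_le (g : Tr → ℝ) (C : ℝ) (hC : ∀ q, |g q| ≤ C) (q : Tr) (ε : Bool) :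
    |lft g q ε| ≤ C := by
  have key : ∀ (q : Tr) (ε : Bool), |if ε then g q / 2 else -(g q / 2)| ≤ C := by
    intro q ε
    have := hC q
    have h2 := abs_nonneg (g q)
    split_ifs
    · rw [abs_div, abs_two]; linarith
    · rw [abs_neg, abs_div, abs_two]; linarith
  induction q generalizing ε with
  | nil => exact key _ _
  | cons a q ih =>
    unfold lft
    by_cases h : g (a :: q) ≠ 0
    · rw [if_pos h]; exact key _ _
    · rw [if_neg h]; exact ih _

lemma lft_jump (g : Tr → ℝ) (q : Tr) : lft g q true - lft g q false = g q := by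
  cases q with
  | nil => simp [lft]
  | cons a q =>
    unfold lft
    by_cases h : g (a :: q) ≠ 0
    · rw [if_pos h, if_pos h]; simp
    · rw [if_neg h, if_neg h, sub_self]; exact (not_not.mp h).symm

lemma countable_jump_ne (b : Br) (x : LO) : {q : Tr | jump b q x ≠ 0}.Countable := by
  refine (Set.countable_iUnion fun i : ℕ =>
    (countable_mu_ne b i x).preimage_of_injOn (f := tau) tau_injective.injOn).mono ?_
  intro q hq
  exact Set.mem_iUnion.mpr ⟨q.length, hq⟩

lemma proj_surjective : Function.Surjective proj := by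
  intro x
  set f : LI := ofNormedAddCommGroupDiscrete
    (fun i : Ix => lft (fun q => jump i.1 q x) i.2.1 i.2.2) ‖x‖
    (fun i => abs_lft_le _ _ (fun q => abs_mu_le _ _ _ _) _ _) with hf
  have hf' : ∀ b q ε, f (ix b q ε) = lft (fun q => jump b q x) q ε := fun b q ε => rfl
  refine ⟨⟨(x, f), mem_XS.mpr ⟨fun b => ?_, fun b q => ?_⟩⟩, rfl⟩
  · refine ((countable_jump_ne b x).preimage_of_injOn
      (f := fun p : (Bool × Br) × Tr => p.1 :: p.2) ?_).mono ?_
    · rintro p - p' - h
      exact Prod.ext (List.cons.inj h).1 (List.cons.inj h).2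
    · rintro p ⟨δ, hδ⟩
      by_contra hp
      refine hδ ?_
      show f _ = f _
      rw [hf', hf']
      conv_lhs => unfold lft
      exact if_neg hp
  · show f _ - f _ = _
    rw [hf', hf', lft_jump]

lemma usi_quot {X : Type} [NormedAddCommGroup X] [NormedSpace ℝ X] [CompleteSpace X]
    (π : X →L[ℝ] LO) (hπ : Function.Surjective π) (Y : Submodule ℝ X) [IsClosed (Y : Set X)]
    (hY : Y = π.ker) {V : Type u} [NormedAddCommGroup V] [NormedSpace ℝ V]
    (W : Submodule ℝ V) (t : W →L[ℝ] (X ⧸ Y)) :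
    ∃ T : V →L[ℝ] (X ⧸ Y), ∀ w : W, T w = t w := by
  set e : (X ⧸ Y) ≃L[ℝ] LO := ContinuousLinearEquiv.ofBijective (Y.liftQL π hY.le)
    (by rw [Submodule.toLinearMap_liftQL]; exact Submodule.ker_liftQ_eq_bot _ _ _ hY.ge)
    (by
      rw [Submodule.toLinearMap_liftQL, Submodule.range_liftQ]
      exact LinearMap.range_eq_top.mpr hπ) with he
  obtain ⟨T, hT⟩ := injective_LO W ((e : (X ⧸ Y) →L[ℝ] LO).comp t)
  refine ⟨(e.symm : LO →L[ℝ] (X ⧸ Y)).comp T, fun w => ?_⟩
  simp [hT]

/-- The embedding of the separable test space. -/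
noncomputable def tst : cz →L[ℝ] XS :=
  (cz.subtypeL.prod (0 : cz →L[ℝ] LI)).codRestrict XS (fun y =>
    mem_XS.mpr ⟨fun b => by simp [Exc], fun b q => by
      have := mu_cz b (tau q) q.length y.2
      simpa [jump, muL_apply] using this.symm⟩)

lemma no_extension : ¬ ∃ T : LO →L[ℝ] XS, ∀ y : cz, T y = tst y := by
  rintro ⟨T, hT⟩
  have hunc : ¬ (Set.univ : Set Br).Countable := by
    rw [← Cardinal.le_aleph0_iff_set_countable]
    simp [Cardinal.aleph0_lt_continuum]
  have hbad : ∀ ω : Om, {b : Br | ∃ x : LO, (∀ ω : Om, ω.2.1 ≠ res b ω.1 → x ω = 0) ∧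
      ((evalCLM ℝ ω).comp (proj.comp T - ContinuousLinearMap.id ℝ LO)) x ≠ 0}.Countable := by
    intro ω
    refine countable_bad _ fun x hx => ?_
    have := hT ⟨x, hx⟩
    have h2 : proj (T x) = x := by rw [this]; rfl
    show (proj (T x) - x) ω = 0
    rw [h2, sub_self]; rfl
  obtain ⟨b, hb⟩ : ∃ b : Br, ∀ x : LO, (∀ ω : Om, ω.2.1 ≠ res b ω.1 → x ω = 0) →
      proj (T x) = x := by
    by_contra hc
    push Not at hc
    refine hunc ((Set.countable_iUnion hbad).mono fun b _ => ?_)
    obtain ⟨x, hx1, hx2⟩ := hc b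
    obtain ⟨ω, hω⟩ : ∃ ω, proj (T x) ω ≠ x ω := by
      by_contra h
      push Not at h
      exact hx2 (BoundedContinuousFunction.ext h)
    exact Set.mem_iUnion.mpr ⟨ω, x, hx1, sub_ne_zero.mpr hω⟩
  set F : LO →L[ℝ] LI := (ContinuousLinearMap.snd ℝ LO LI).comp (XS.subtypeL.comp T) with hF
  have hF' : ∀ x, F x = (T x).1.2 := fun x => rfl
  have hstep : ∀ c : Tr, ∃ (δ : Bool) (z : LO),
      (∀ ω : Om, ω.2.1 ≠ res b ω.1 → z ω = 0) ∧
      (∀ ω : Om, (Nat.unpair ω.1).1 ≠ c.length → z ω = 0) ∧ (∀ ω, |z ω| ≤ 1) ∧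
      1 / 2 ≤ F z (ix b c δ) := by
    intro c
    set z := zf b (tau c) c.length with hz
    have z1 : ∀ ω : Om, ω.2.1 ≠ res b ω.1 → z ω = 0 := fun ω h => by
      rw [hz, zf_apply, if_neg fun h' => h h'.1]
    have z2 : ∀ ω : Om, (Nat.unpair ω.1).1 ≠ c.length → z ω = 0 := fun ω h => by
      rw [hz, zf_apply, if_neg fun h' => h h'.2]
    have z3 : ∀ ω, |z ω| ≤ 1 := fun ω => by
      rw [hz, zf_apply]
      split_ifs
      · rw [abs_chi]
      · simp
    have hj : F z (ix b c true) - F z (ix b c false) = 1 := by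
      rw [hF', (mem_XS.mp (T z).2).2 b c, ← proj_apply, hb z z1]
      exact mu_zf _ _ _
    by_cases h : 1 / 2 ≤ F z (ix b c true)
    · exact ⟨true, z, z1, z2, z3, h⟩
    · refine ⟨false, -z, fun ω hω => by simp [z1 ω hω], fun ω hω => by simp [z2 ω hω],
        fun ω => by simpa using z3 ω, ?_⟩
      rw [map_neg, BoundedContinuousFunction.neg_apply]
      linarith
  have hind : ∀ m : ℕ, ∃ (q : Tr) (ε : Bool) (x : LO), q.length = m ∧
      (∀ ω : Om, m < (Nat.unpair ω.1).1 → x ω = 0) ∧ (∀ ω, |x ω| ≤ 1) ∧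
      ((m : ℝ) + 1) / 2 ≤ F x (ix b q ε) := by
    intro m
    induction m with
    | zero =>
      obtain ⟨δ, z, -, z2, z3, z4⟩ := hstep []
      exact ⟨[], δ, z, rfl, fun ω hω => z2 ω hω.ne', z3, by simpa using z4⟩
    | succ m ih =>
      obtain ⟨q, ε, x, hq, x2, x3, x4⟩ := ih
      obtain ⟨t, ht⟩ : ∃ t : Br, ((ε, t), q) ∉ Exc (F x) b := by
        by_contra hc
        push Not at hc
        refine hunc ((((mem_XS.mp (T x).2).1 b).preimage_of_injOn
          (f := fun t : Br => ((ε, t), q)) ?_).mono fun t _ => hc t)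
        rintro t - t' - h
        exact (Prod.mk.inj (Prod.mk.inj h).1).2
      obtain ⟨δ, z, -, z2, z3, z4⟩ := hstep ((ε, t) :: q)
      have hlen : ((ε, t) :: q).length = m + 1 := by simp [hq]
      rw [hlen] at z2
      refine ⟨(ε, t) :: q, δ, x + z, hlen, fun ω hω => ?_, fun ω => ?_, ?_⟩
      · rw [BoundedContinuousFunction.add_apply, x2 ω (by omega), z2 ω (by omega), add_zero]
      · rw [BoundedContinuousFunction.add_apply]
        by_cases h : (Nat.unpair ω.1).1 = m + 1
        · rw [x2 ω (by omega), zero_add]; exact z3 ω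
        · rw [z2 ω h, add_zero]; exact x3 ω
      · have : F x (ix b ((ε, t) :: q) δ) = F x (ix b q ε) := by
          by_contra hne
          exact ht ⟨δ, hne⟩
        rw [map_add, BoundedContinuousFunction.add_apply, this]
        push_cast
        linarith
  obtain ⟨m, hm⟩ := exists_nat_gt (2 * ‖F‖)
  obtain ⟨q, ε, x, -, -, x3, x4⟩ := hind m
  have hx : ‖x‖ ≤ 1 := (BoundedContinuousFunction.norm_le zero_le_one).mpr x3
  have h1 : F x (ix b q ε) ≤ ‖F‖ :=
    (le_abs_self _).trans (((F x).norm_coe_le_norm _).trans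
      ((F.le_opNorm x).trans (mul_le_of_le_one_right (norm_nonneg _) hx)))
  linarith

end Pool.Agent.Lib.MP_faf25a_an
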